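import Pool.Agent.helper72.ODK.Spec

set_option autoImplicit false

namespace Pool.Agent.helper72.UP

open Finset

theorem CEW_even (m : ℕ) (hm : 1 ≤ m) : 16 ^ m ≤ 4 * m * (Nat.centralBinom m) ^ 2 := by
  induction m, hm using Nat.le_induction with
  | base => decide
  | succ m hm ih =>
    have h1 := Nat.succ_mul_centralBinom_succ m
    set c := Nat.centralBinom m with hc
    set d := Nat.centralBinom (m + 1) with hd
    have h2 : 16 ^ (m + 1) * (m + 1) ≤ (4 * (m + 1) * d ^ 2) * (m + 1) := by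
      have h3 : (4 * (m + 1) * d ^ 2) * (m + 1) = 4 * ((m + 1) * d) ^ 2 := by ring
      rw [h3, h1, pow_succ]
      have h4 : 16 ^ m * (16 * (m + 1)) ≤ 4 * m * c ^ 2 * (16 * (m + 1)) := Nat.mul_le_mul_right _ ih
      have h5 : 4 * m * c ^ 2 * (16 * (m + 1)) ≤ 4 * (2 * (2 * m + 1) * c) ^ 2 := by
        have h6 : 4 * (2 * (2 * m + 1) * c) ^ 2 = 4 * m * c ^ 2 * (16 * (m + 1)) + 16 * c ^ 2 := by
          ring
        omega
      calc 16 ^ m * 16 * (m + 1) = 16 ^ m * (16 * (m + 1)) := by ring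
        _ ≤ _ := h4.trans h5
    exact Nat.le_of_mul_le_mul_right h2 (Nat.succ_pos m)

theorem CEW_nat (a : ℕ) (ha : 1 ≤ a) : 4 ^ a ≤ 4 * a * (a.choose (a / 2)) ^ 2 := by
  rcases Nat.even_or_odd' a with ⟨m, rfl | rfl⟩
  · have h := CEW_even m (by omega)
    rw [Nat.centralBinom_eq_two_mul_choose] at h
    have h1 : 2 * m / 2 = m := by omega
    rw [h1, pow_mul]
    refine le_trans (le_trans (le_of_eq (by norm_num)) h) ?_
    exact Nat.mul_le_mul_right _ (by omega)
  · have h := CEW_even (m + 1) (by omega)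
    rw [Nat.centralBinom_eq_two_mul_choose] at h
    have h1 : (2 * m + 1) / 2 = m := by omega
    have h2 : (2 * (m + 1)).choose (m + 1) = 2 * (2 * m + 1).choose m := by
      have h3 : 2 * (m + 1) = (2 * m + 1) + 1 := by ring
      rw [h3, Nat.choose_succ_succ, Nat.choose_symm_half]
      ring
    rw [h2] at h
    rw [h1]
    have h4 : 16 ^ m ≤ (m + 1) * ((2 * m + 1).choose m) ^ 2 := by
      have h5 : 16 ^ m * 16 ≤ ((m + 1) * ((2 * m + 1).choose m) ^ 2) * 16 := by
        refine le_trans (le_of_eq (pow_succ 16 m).symm) (le_trans h (le_of_eq ?_))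
        ring
      exact Nat.le_of_mul_le_mul_right h5 (by norm_num)
    have h6 : (m + 1) * ((2 * m + 1).choose m) ^ 2 ≤ (2 * m + 1) * ((2 * m + 1).choose m) ^ 2 :=
      Nat.mul_le_mul_right _ (by omega)
    have h7 : 4 ^ (2 * m + 1) = 4 * 16 ^ m := by
      rw [pow_succ, pow_mul]
      norm_num
      ring
    rw [h7]
    calc 4 * 16 ^ m ≤ 4 * ((2 * m + 1) * ((2 * m + 1).choose m) ^ 2) :=
          Nat.mul_le_mul_left _ (h4.trans h6)
      _ = _ := by ring

theorem CEW : CEW_stmt := by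
  intro a ha
  have h := CEW_nat a ha
  have h1 : ((4 : ℝ)) ^ a ≤ 4 * a * (a.choose (a / 2) : ℝ) ^ 2 := by exact_mod_cast h
  have h2 : (0 : ℝ) ≤ 2 * Real.sqrt a * a.choose (a / 2) := by positivity
  rw [← pow_le_pow_iff_left₀ (by positivity) h2 two_ne_zero]
  have h3 : (2 * Real.sqrt a * (a.choose (a / 2) : ℝ)) ^ 2 = 4 * a * (a.choose (a / 2) : ℝ) ^ 2 := by
    rw [mul_pow, mul_pow, Real.sq_sqrt (Nat.cast_nonneg a)]
    norm_num
  rw [h3, ← pow_mul, mul_comm a 2, pow_mul]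
  norm_num
  linarith

end Pool.Agent.helper72.UP
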