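import Pool.Agent.helper72.ODK.Spec

set_option autoImplicit false

namespace Pool.Agent.helper72.UP

open Finset

/-- past the middle the binomial coefficients decrease -/
theorem TAW_dec (b i : ℕ) (h : b ≤ 2 * i + 3) : b.choose (i + 2) ≤ b.choose (i + 1) := by
  have h1 := Nat.choose_succ_right_eq b (i + 1)
  have h2 : b.choose (i + 2) * (i + 2) ≤ b.choose (i + 1) * (i + 2) := by
    have h3 : b.choose (i + 1) * (b - (i + 1)) ≤ b.choose (i + 1) * (i + 2) :=
      Nat.mul_le_mul_left _ (by omega)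
    exact le_trans (le_of_eq h1) h3
  exact Nat.le_of_mul_le_mul_right h2 (by omega)

theorem TAW_dec' (a i : ℕ) (h : a ≤ 2 * i + 1) : a.choose (i + 1) ≤ a.choose i := by
  have h1 := Nat.choose_succ_right_eq a i
  have h2 : a.choose (i + 1) * (i + 1) ≤ a.choose i * (i + 1) := by
    have h3 : a.choose i * (a - i) ≤ a.choose i * (i + 1) :=
      Nat.mul_le_mul_left _ (by omega)
    exact le_trans (le_of_eq h1) h3
  exact Nat.le_of_mul_le_mul_right h2 (by omega)

theorem TAW_anti (a K : ℕ) (h : a ≤ 2 * K) (d : ℕ) : ∀ i, K ≤ i → a.choose (i + d) ≤ a.choose i := by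
  induction d with
  | zero => exact fun i _ => le_rfl
  | succ d ih =>
    intro i hi
    have h1 := TAW_dec' a (i + d) (by omega)
    exact le_trans h1 (ih i hi)

theorem TAW_tel (b K d : ℕ) :
    ∑ i ∈ Ico K (K + d), ((b.choose (i + 1) : ℝ) - b.choose (i + 2)) =
      (b.choose (K + 1) : ℝ) - b.choose (K + d + 1) := by
  induction d with
  | zero => simp
  | succ d ih =>
    rw [← Nat.add_assoc K d 1, Finset.sum_Ico_succ_top (by omega), ih]
    have : K + d + 1 + 1 = K + d + 2 := rfl
    rw [this]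
    ring

theorem TAW : TAW_stmt := by
  intro a b K L ha hb hKL hL
  have h1 : ∑ i ∈ Ico K (K + (L - K + 1)), ((b.choose (i + 1) : ℝ) - b.choose (i + 2)) =
      (b.choose (K + 1) : ℝ) - b.choose (K + (L - K + 1) + 1) := TAW_tel b K (L - K + 1)
  have e1 : K + (L - K + 1) = L + 1 := by omega
  rw [e1] at h1
  have e2 : L + 1 + 1 = L + 2 := rfl
  rw [e2] at h1
  have hpos : ∀ i, K ≤ i → (0 : ℝ) ≤ (b.choose (i + 1) : ℝ) - b.choose (i + 2) := by
    intro i hi
    have := TAW_dec b i (by omega)
    have h2 : (b.choose (i + 2) : ℝ) ≤ b.choose (i + 1) := by exact_mod_cast this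
    linarith
  rw [← h1, mul_sum]
  calc ∑ i ∈ Ico K (L + 1), (a.choose L : ℝ) * ((b.choose (i + 1) : ℝ) - b.choose (i + 2))
      ≤ ∑ i ∈ Ico K (L + 1), (a.choose i : ℝ) * ((b.choose (i + 1) : ℝ) - b.choose (i + 2)) := by
        refine sum_le_sum fun i hi => ?_
        rw [mem_Ico] at hi
        refine mul_le_mul_of_nonneg_right ?_ (hpos i hi.1)
        have h3 := TAW_anti a K ha (L - i) i hi.1
        have e3 : i + (L - i) = L := by omega
        rw [e3] at h3
        exact_mod_cast h3
    _ ≤ ∑ i ∈ Ico K b, (a.choose i : ℝ) * ((b.choose (i + 1) : ℝ) - b.choose (i + 2)) := by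
        refine sum_le_sum_of_subset_of_nonneg (Ico_subset_Ico_right (by omega)) ?_
        intro i hi _
        rw [mem_Ico] at hi
        exact mul_nonneg (Nat.cast_nonneg _) (hpos i hi.1)

end Pool.Agent.helper72.UP
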